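import Mathlib

/-!
# Fractional zero forcing number equal to the zero forcing number without a fort packing

`Z*(G) = Z(G)` does not imply `ft(G) = Z(G)`: an explicit connected graph on 11 vertices has
`Z*(G) = Z(G) = 2` and `ft(G) = 1`.
-/

namespace Pool.Agent.Results.MP_7d76f2_co.EqualNotPacked

open Finset

variable {V : Type*}

/-- The vertices which are filled when the colour change rule is applied as long as possible,
starting with exactly the vertices of `S` filled. -/
inductive Filled (G : SimpleGraph V) (S : Set V) : V → Prop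
  | init {v : V} : v ∈ S → Filled G S v
  | force {u w : V} : Filled G S u → G.Adj u w →
      (∀ z, G.Adj u z → z ≠ w → Filled G S z) → Filled G S w

/-- `S` is a zero forcing set. -/
def IsZeroForcing (G : SimpleGraph V) (S : Set V) : Prop := ∀ v, Filled G S v

/-- `F` is a fort: it is nonempty and no vertex outside `F` has exactly one neighbour in `F`. -/
def IsFort (G : SimpleGraph V) (F : Set V) : Prop :=
  F.Nonempty ∧ ∀ v, v ∉ F → ¬ ∃! w, w ∈ F ∧ G.Adj v w

/-- `F` is a minimal fort: it contains no other fort. -/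
def IsMinimalFort (G : SimpleGraph V) (F : Set V) : Prop :=
  IsFort G F ∧ ∀ F', IsFort G F' → F' ⊆ F → F' = F

/-- The zero forcing number `Z(G)`. -/
noncomputable def zeroForcingNumber (G : SimpleGraph V) : ℕ :=
  sInf {k | ∃ S : Finset V, IsZeroForcing G (S : Set V) ∧ S.card = k}

/-- The fort number `ft(G)`: the maximum number of pairwise disjoint forts. -/
noncomputable def fortNumber (G : SimpleGraph V) : ℕ :=
  sSup {k | ∃ P : Finset (Finset V), (∀ F ∈ P, IsFort G (F : Set V)) ∧
    (∀ F ∈ P, ∀ F' ∈ P, F ≠ F' → Disjoint F F') ∧ P.card = k}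

/-- Feasible vectors of the linear program for `Z*(G)`. -/
def IsFractionalTransversal [Fintype V] (G : SimpleGraph V) (x : V → ℝ) : Prop :=
  (∀ v, 0 ≤ x v) ∧ ∀ F : Finset V, IsMinimalFort G (F : Set V) → 1 ≤ ∑ v ∈ F, x v

/-- The fractional zero forcing number `Z*(G)`. -/
noncomputable def fractionalZeroForcingNumber [Fintype V] (G : SimpleGraph V) : ℝ :=
  sInf {t | ∃ x : V → ℝ, IsFractionalTransversal G x ∧ t = ∑ v, x v}

/-- A zero forcing set meets every fort. -/
theorem IsZeroForcing.meets {G : SimpleGraph V} {S F : Set V} (hS : IsZeroForcing G S)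
    (hF : IsFort G F) : ∃ v, v ∈ S ∧ v ∈ F := by
  by_contra hne
  push Not at hne
  have key : ∀ v, Filled G S v → v ∉ F := by
    intro v hv
    induction hv with
    | init h => exact hne _ h
    | force hu huw hz ihu ihz =>
      rename_i u w
      intro hw
      apply hF.2 u ihu
      refine ⟨w, ⟨hw, huw⟩, ?_⟩
      rintro z ⟨hzF, huz⟩
      by_contra hzw
      exact ihz z huz hzw hzF
  obtain ⟨v, hv⟩ := hF.1
  exact key v (hS v) hv

/-- The list of edges of the counterexample. -/
def edgeList : List (Fin 11 × Fin 11) :=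
  [(0, 3), (1, 8), (1, 9), (2, 3), (2, 4), (2, 9), (2, 10), (3, 5), (3, 9), (5, 8), (6, 7),
    (6, 9), (7, 10)]

/-- The counterexample: a connected graph with 11 vertices and 13 edges. -/
def X : SimpleGraph (Fin 11) where
  Adj i j := (i, j) ∈ edgeList ∨ (j, i) ∈ edgeList
  symm := ⟨fun _ _ h => h.symm⟩
  loopless := ⟨by decide⟩

instance : DecidableRel X.Adj := fun i j =>
  inferInstanceAs (Decidable ((i, j) ∈ edgeList ∨ (j, i) ∈ edgeList))

/-- The decidable form of being a fort. -/
def fortB (F : Finset (Fin 11)) : Bool :=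
  decide (∀ v : Fin 11, v ∉ F → (F.filter (fun w => X.Adj v w)).card ≠ 1)

theorem fortB_of_isFort {F : Finset (Fin 11)} (h : IsFort X (F : Set (Fin 11))) :
    F ≠ ∅ ∧ fortB F = true := by
  refine ⟨by rintro rfl; simpa using h.1, ?_⟩
  rw [fortB, decide_eq_true_iff]
  intro v hv hc
  obtain ⟨w, hw⟩ := Finset.card_eq_one.1 hc
  have hw' : w ∈ F.filter (fun w => X.Adj v w) := by rw [hw]; simp
  rw [Finset.mem_filter] at hw'
  apply h.2 v (by simpa using hv)
  refine ⟨w, ⟨by simpa using hw'.1, hw'.2⟩, ?_⟩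
  rintro z ⟨hz, hvz⟩
  have : z ∈ F.filter (fun w => X.Adj v w) := Finset.mem_filter.2 ⟨by simpa using hz, hvz⟩
  rw [hw] at this
  simpa using this

theorem isFort_of_fortB {F : Finset (Fin 11)} (h0 : F.Nonempty) (h : fortB F = true) :
    IsFort X (F : Set (Fin 11)) := by
  rw [fortB, decide_eq_true_iff] at h
  refine ⟨by simpa using h0, ?_⟩
  rintro v hv ⟨w, ⟨hw, hvw⟩, hu⟩
  apply h v (by simpa using hv)
  rw [Finset.card_eq_one]
  refine ⟨w, ?_⟩
  ext z
  rw [Finset.mem_filter, Finset.mem_singleton]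
  constructor
  · rintro ⟨hz, hvz⟩
    exact hu z ⟨by simpa using hz, hvz⟩
  · rintro rfl
    exact ⟨by simpa using hw, hvw⟩

/-- The minimal forts. -/
def mins : List (Finset (Fin 11)) :=
  [{0, 1, 3, 4, 5}, {0, 2, 4, 6, 7}, {0, 1, 3, 4, 8}, {0, 2, 4, 6, 10}, {1, 5, 6, 9, 10},
   {1, 5, 7, 9, 10}, {5, 6, 8, 9, 10}, {5, 7, 8, 9, 10}, {1, 2, 4, 5, 6, 7},
   {1, 2, 4, 5, 7, 9}, {2, 4, 5, 7, 8, 9}, {0, 1, 3, 5, 6, 10}, {0, 1, 4, 5, 6, 10},
   {1, 2, 4, 5, 6, 10}, {0, 1, 3, 6, 8, 10}, {0, 3, 6, 8, 9, 10}, {0, 3, 7, 8, 9, 10},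
   {0, 2, 3, 4, 7, 8, 9}]

theorem contains_min : ∀ F : Finset (Fin 11), F ≠ ∅ → fortB F = true →
    ∃ M ∈ mins, M ⊆ F := by
  decide +kernel

theorem mins_meet : ∀ M ∈ mins, ∀ M' ∈ mins, ¬ Disjoint M M' := by
  decide +kernel

/-- Any two forts of the counterexample meet. -/
theorem forts_meet {F F' : Finset (Fin 11)} (h : IsFort X (F : Set (Fin 11)))
    (h' : IsFort X (F' : Set (Fin 11))) : ¬ Disjoint F F' := by
  intro hd
  obtain ⟨a, b⟩ := fortB_of_isFort h
  obtain ⟨a', b'⟩ := fortB_of_isFort h'
  obtain ⟨M, hM, hMF⟩ := contains_min F a b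
  obtain ⟨M', hM', hMF'⟩ := contains_min F' a' b'
  exact mins_meet M hM M' hM' (hd.mono hMF hMF')

/-- The four forts of the fractional packing. -/
def four : List (Finset (Fin 11)) :=
  [{0, 2, 4, 6, 7}, {0, 1, 3, 4, 8}, {1, 5, 6, 9, 10}, {5, 7, 8, 9, 10}]

theorem four_fort : ∀ F ∈ four, fortB F = true ∧ F.Nonempty := by
  decide +kernel

theorem four_min : ∀ F ∈ four, ∀ M ∈ mins, M ⊆ F → M = F := by
  decide +kernel

theorem four_minimal {F : Finset (Fin 11)} (hF : F ∈ four) :
    IsMinimalFort X (F : Set (Fin 11)) := by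
  obtain ⟨h1, h2⟩ := four_fort F hF
  refine ⟨isFort_of_fortB h2 h1, ?_⟩
  intro F' hF' hsub
  obtain ⟨T, hT⟩ : ∃ T : Finset (Fin 11), (T : Set (Fin 11)) = F' := by
    classical
    exact ⟨F'.toFinset, by simp⟩
  subst hT
  obtain ⟨a, b⟩ := fortB_of_isFort hF'
  obtain ⟨M, hM, hMT⟩ := contains_min T a b
  have hTF : T ⊆ F := by exact_mod_cast hsub
  have := four_min F hF M hM (hMT.trans hTF)
  subst this
  rw [Finset.Subset.antisymm hTF hMT]

theorem isZeroForcing_pair : IsZeroForcing X ({0, 5} : Set (Fin 11)) := by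
  have f0 : Filled X ({0, 5} : Set (Fin 11)) 0 := .init (by simp)
  have f5 : Filled X ({0, 5} : Set (Fin 11)) 5 := .init (by simp)
  have f3 : Filled X ({0, 5} : Set (Fin 11)) 3 := by
    refine .force f0 (by decide) ?_
    intro z hz hne
    have : False := by revert z; decide
    exact this.elim
  have f8 : Filled X ({0, 5} : Set (Fin 11)) 8 := by
    refine .force f5 (by decide) ?_
    intro z hz hne
    have : z = 3 := by revert z; decide
    rw [this]; exact f3
  have f1 : Filled X ({0, 5} : Set (Fin 11)) 1 := by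
    refine .force f8 (by decide) ?_
    intro z hz hne
    have : z = 5 := by revert z; decide
    rw [this]; exact f5
  have f9 : Filled X ({0, 5} : Set (Fin 11)) 9 := by
    refine .force f1 (by decide) ?_
    intro z hz hne
    have : z = 8 := by revert z; decide
    rw [this]; exact f8
  have f2 : Filled X ({0, 5} : Set (Fin 11)) 2 := by
    refine .force f3 (by decide) ?_
    intro z hz hne
    have : z = 0 ∨ z = 5 ∨ z = 9 := by revert z; decide
    rcases this with rfl | rfl | rfl
    exacts [f0, f5, f9]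
  have f6 : Filled X ({0, 5} : Set (Fin 11)) 6 := by
    refine .force f9 (by decide) ?_
    intro z hz hne
    have : z = 1 ∨ z = 2 ∨ z = 3 := by revert z; decide
    rcases this with rfl | rfl | rfl
    exacts [f1, f2, f3]
  have f7 : Filled X ({0, 5} : Set (Fin 11)) 7 := by
    refine .force f6 (by decide) ?_
    intro z hz hne
    have : z = 9 := by revert z; decide
    rw [this]; exact f9
  have f10 : Filled X ({0, 5} : Set (Fin 11)) 10 := by
    refine .force f7 (by decide) ?_
    intro z hz hne
    have : z = 6 := by revert z; decide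
    rw [this]; exact f6
  have f4 : Filled X ({0, 5} : Set (Fin 11)) 4 := by
    refine .force f2 (by decide) ?_
    intro z hz hne
    have : z = 3 ∨ z = 9 ∨ z = 10 := by revert z; decide
    rcases this with rfl | rfl | rfl
    exacts [f3, f9, f10]
  intro v
  fin_cases v
  exacts [f0, f1, f2, f3, f4, f5, f6, f7, f8, f9, f10]

/-- The dual bound: every fractional transversal has weight at least 2. -/
theorem two_le_weight {x : Fin 11 → ℝ} (hx : IsFractionalTransversal X x) :
    2 ≤ ∑ v, x v := by
  obtain ⟨h0, h1⟩ := hx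
  have a := h1 _ (four_minimal (F := {0, 2, 4, 6, 7}) (by simp [four]))
  have b := h1 _ (four_minimal (F := {0, 1, 3, 4, 8}) (by simp [four]))
  have c := h1 _ (four_minimal (F := {1, 5, 6, 9, 10}) (by simp [four]))
  have d := h1 _ (four_minimal (F := {5, 7, 8, 9, 10}) (by simp [four]))
  have e2 := h0 2
  have e3 := h0 3
  rw [Finset.sum_insert (by decide), Finset.sum_insert (by decide),
    Finset.sum_insert (by decide), Finset.sum_insert (by decide), Finset.sum_singleton] at a b c d
  have hs : ∑ v, x v = x 0 + x 1 + x 2 + x 3 + x 4 + x 5 + x 6 + x 7 + x 8 + x 9 + x 10 := by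
    simp [Fin.sum_univ_succ]
    ring_nf
  linarith

theorem indicator_transversal {S : Finset (Fin 11)} (hS : IsZeroForcing X (S : Set (Fin 11))) :
    IsFractionalTransversal X (fun v => if v ∈ S then 1 else 0) := by
  refine ⟨fun v => by positivity, fun F hF => ?_⟩
  obtain ⟨v, hvS, hvF⟩ := hS.meets hF.1
  have hle := Finset.single_le_sum (f := fun v => if v ∈ S then (1 : ℝ) else 0)
    (fun i _ => by positivity) (show v ∈ F by simpa using hvF)
  simpa [show v ∈ S by simpa using hvS] using hle

theorem indicator_weight (S : Finset (Fin 11)) :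
    ∑ v, (if v ∈ S then (1 : ℝ) else 0) = (S.card : ℝ) := by
  simp

theorem zeroForcingNumber_X : zeroForcingNumber X = 2 := by
  have hpair : IsZeroForcing X (({0, 5} : Finset (Fin 11)) : Set (Fin 11)) := by
    simpa using isZeroForcing_pair
  apply le_antisymm
  · exact Nat.sInf_le ⟨{0, 5}, hpair, by decide⟩
  · refine le_csInf ⟨2, {0, 5}, hpair, by decide⟩ ?_
    rintro k ⟨S, hS, rfl⟩
    have h := two_le_weight (indicator_transversal hS)
    rw [indicator_weight] at h
    exact_mod_cast h

theorem fractional_X : fractionalZeroForcingNumber X = 2 := by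
  have hpair : IsZeroForcing X (({0, 5} : Finset (Fin 11)) : Set (Fin 11)) := by
    simpa using isZeroForcing_pair
  have hmem : (2 : ℝ) ∈ {t : ℝ | ∃ x : Fin 11 → ℝ, IsFractionalTransversal X x ∧
      t = ∑ v, x v} := by
    refine ⟨_, indicator_transversal hpair, ?_⟩
    rw [indicator_weight, show ({0, 5} : Finset (Fin 11)).card = 2 by decide]
    norm_num
  have hlb : ∀ t ∈ {t : ℝ | ∃ x : Fin 11 → ℝ, IsFractionalTransversal X x ∧
      t = ∑ v, x v}, 2 ≤ t := by
    rintro t ⟨x, hx, rfl⟩
    exact two_le_weight hx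
  apply le_antisymm
  · exact csInf_le ⟨2, hlb⟩ hmem
  · exact le_csInf ⟨2, hmem⟩ hlb

theorem fortNumber_X : fortNumber X = 1 := by
  have hub : ∀ k ∈ {k | ∃ P : Finset (Finset (Fin 11)), (∀ F ∈ P, IsFort X (F : Set (Fin 11))) ∧
      (∀ F ∈ P, ∀ F' ∈ P, F ≠ F' → Disjoint F F') ∧ P.card = k}, k ≤ 1 := by
    rintro k ⟨P, hP, hd, rfl⟩
    rw [Finset.card_le_one]
    intro F hF F' hF'
    by_contra hne
    exact forts_meet (hP F hF) (hP F' hF') (hd F hF F' hF' hne)
  apply le_antisymm
  · exact csSup_le' hub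
  · refine le_csSup ⟨1, hub⟩ ⟨{{0, 2, 4, 6, 7}}, ?_, ?_, by simp⟩
    · intro F hF
      rw [Finset.mem_singleton] at hF
      subst hF
      exact (four_minimal (by simp [four])).1
    · intro F hF F' hF' hne
      rw [Finset.mem_singleton] at hF hF'
      exact absurd (hF.trans hF'.symm) hne

theorem connected_X : X.Connected := by
  have h : ∀ v : Fin 11, X.Reachable 9 v := by
    have e1 : X.Reachable 9 1 := (show X.Adj 9 1 by decide).reachable
    have e2 : X.Reachable 9 2 := (show X.Adj 9 2 by decide).reachable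
    have e3 : X.Reachable 9 3 := (show X.Adj 9 3 by decide).reachable
    have e6 : X.Reachable 9 6 := (show X.Adj 9 6 by decide).reachable
    have e0 := e3.trans (show X.Adj 3 0 by decide).reachable
    have e5 := e3.trans (show X.Adj 3 5 by decide).reachable
    have e4 := e2.trans (show X.Adj 2 4 by decide).reachable
    have e10 := e2.trans (show X.Adj 2 10 by decide).reachable
    have e7 := e6.trans (show X.Adj 6 7 by decide).reachable
    have e8 := e1.trans (show X.Adj 1 8 by decide).reachable
    have e9 : X.Reachable 9 9 := SimpleGraph.Reachable.refl _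
    intro v
    fin_cases v
    exacts [e0, e1, e2, e3, e4, e5, e6, e7, e8, e9, e10]
  rw [SimpleGraph.connected_iff]
  exact ⟨fun u v => (h u).symm.trans (h v), ⟨0⟩⟩

/-- **Disproof.** There is a connected graph on 11 vertices with `Z*(G) = Z(G) = 2` and
`ft(G) = 1`; in particular it is not true that for every graph `Z*(G) = Z(G)` holds if and only
if `ft(G) = Z(G)`. -/
theorem result :
    (∃ G : SimpleGraph (Fin 11), G.Connected ∧ zeroForcingNumber G = 2 ∧
      fractionalZeroForcingNumber G = 2 ∧ fortNumber G = 1) ∧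
    ¬ ∀ (n : ℕ) (G : SimpleGraph (Fin n)), 0 < n →
      (fractionalZeroForcingNumber G = zeroForcingNumber G ↔
        fortNumber G = zeroForcingNumber G) := by
  refine ⟨⟨X, connected_X, zeroForcingNumber_X, fractional_X, fortNumber_X⟩, ?_⟩
  intro h
  have := (h 11 X (by norm_num)).1 (by rw [fractional_X, zeroForcingNumber_X]; norm_num)
  rw [fortNumber_X, zeroForcingNumber_X] at this
  exact absurd this (by norm_num)

end Pool.Agent.Results.MP_7d76f2_co.EqualNotPacked
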